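import Pool.Agent.Helper804.Cut.Main

/-!
# A uniformly semi-rational group whose Sylow 3-subgroup is not semi-rational

The finite group `G` of the helper module (block matrices over the field with three elements) is
uniformly semi-rational with `m = -1`, while its Sylow 3-subgroup is not even semi-rational.
-/

set_option autoImplicit false

namespace Pool.Agent.Results.MP_a5b85f_al.SylowThreeNotSemirational

/-- `H` is semi-rational: for every `x` there is an integer `m` such that every generator `y` of the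
cyclic subgroup generated by `x` is conjugate in `H` to `x` or to `x ^ m`. -/
def SemiRational (H : Type) [Group H] : Prop :=
  ∀ x : H, ∃ m : ℤ, ∀ y : H, Subgroup.zpowers y = Subgroup.zpowers x →
    IsConj y x ∨ IsConj y (x ^ m)

/-- `H` is uniformly semi-rational: there is one integer `m` such that, for every `x`, every
generator `y` of the cyclic subgroup generated by `x` is conjugate in `H` to `x` or to `x ^ m`. -/
def UniformlySemiRational (H : Type) [Group H] : Prop :=
  ∃ m : ℤ, ∀ x y : H, Subgroup.zpowers y = Subgroup.zpowers x →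
    IsConj y x ∨ IsConj y (x ^ m)

open Pool.Agent.Helper804.Cut

/-- the coordinate `k.a` is invariant under conjugation -/
lemma ka_conj (x y : P₀) (h : IsConj x y) : (x : G).k.a = (y : G).k.a := by
  rw [isConj_iff] at h
  obtain ⟨c, hc⟩ := h
  have h5 : (c : G) * (x : G) = (y : G) * (c : G) := by
    rw [← hc]
    simp
  have h6 := congrArg (fun z : G => z.k.a) h5
  have h7 : ((c : G) * (x : G)).k.a = (c : G).k.a + (x : G).k.a := rfl
  have h8 : ((y : G) * (c : G)).k.a = (y : G).k.a + (c : G).k.a := rfl
  have h9 : (c : G).k.a + (x : G).k.a = (y : G).k.a + (c : G).k.a := by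
    rw [← h7, ← h8]; exact h6
  linear_combination h9

/-- There is a finite uniformly semi-rational group with a Sylow 3-subgroup that is not
semi-rational. -/
theorem result : ∃ (G : Type) (_ : Group G) (_ : Finite G) (P : Sylow 3 G),
    UniformlySemiRational G ∧ ¬ SemiRational (P : Subgroup G) := by
  refine ⟨G, inferInstance, inferInstance, P, ⟨-1, fun x y h => ?_⟩, fun h => ?_⟩
  · rw [zpow_neg_one]
    exact cut x y h
  · have h2 : SemiRational P₀ := h
    obtain ⟨m, hm⟩ := h2 ⟨x₀, x₀_mem⟩
    have h3 := hm (⟨x₀, x₀_mem⟩ ^ 4) (x₀_zpowers ⟨x₀, x₀_mem⟩ rfl)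
    have h4 := hm (⟨x₀, x₀_mem⟩⁻¹) Subgroup.zpowers_inv
    have e4 : (x₀ ^ 4).k.a = 1 := by rw [x₀_four_k]
    have einv : (x₀⁻¹).k.a = -1 := rfl
    have h5 : IsConj ((⟨x₀, x₀_mem⟩ : P₀) ^ 4) ((⟨x₀, x₀_mem⟩ : P₀) ^ m) := by
      rcases h3 with h3 | h3
      · exfalso
        rw [isConj_comm, isConj_iff] at h3
        obtain ⟨c, hc⟩ := h3
        have h6 : (c : G) * x₀ * (c : G)⁻¹ = x₀ ^ 4 := congrArg Subtype.val hc
        obtain ⟨s, hs⟩ := P₀_h c.1 c.2
        refine not_conj c.1 s hs ?_
        rw [← h6]; group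
      · exact h3
    have h6 : IsConj ((⟨x₀, x₀_mem⟩ : P₀)⁻¹) ((⟨x₀, x₀_mem⟩ : P₀) ^ m) := by
      rcases h4 with h4 | h4
      · exfalso
        have h7 : (x₀⁻¹).k.a = x₀.k.a := ka_conj _ _ h4
        rw [einv] at h7
        exact absurd h7 (by decide)
      · exact h4
    have h7 : (x₀ ^ 4).k.a = (x₀⁻¹).k.a := ka_conj _ _ (h5.trans h6.symm)
    rw [e4, einv] at h7
    exact absurd h7 (by decide)

end Pool.Agent.Results.MP_a5b85f_al.SylowThreeNotSemirational
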